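import Pool.Agent.helper59.FI.Base

/-!
# Project fi (MP_baa4d7_al), block A2, part 1: relative block idempotents, coset sums, extension of subpairs

Architect helper59. Paper: /team-store/FI_paper_helper12.md (block A, second half).

RULES. One file per row: `Pool/Agent/<seat>/FIB/XXX.lean` (directory FIB) with

  import Pool.Agent.helper59.FI.SpecB
  set_option autoImplicit false
  namespace Pool.Agent.FI
  open Pool.Agent.helper58.DC Pool.Agent.DI Pool.Agent.GR Pool.Agent.OB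
  theorem XXX (hYYY : YYY_stmt) ... : XXX_stmt := ...
  end Pool.Agent.FI

auxiliary lemmas prefixed `XXX_`, no sorry, no double quotes in the file, no `convert`, no `congr!`, no `native_decide`.
The rows named in the theorem line are taken as hypotheses; the proved rows of GR, OB, DI (`CVF_stmt`, `CCI_stmt`,
`EXP_stmt`, `IDM_stmt`, `EIN_stmt`, `LIF_stmt`, `NIL_stmt`, `BRH_stmt`, `SCH_stmt` of GR, `C4_stmt` of DI, ...) may always
be added as further hypotheses.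

PROVED and ready to use (file `Pool/Agent/helper59/FI/Base.lean`, read it first): `IrrOn_zero`, `IrrOn_pos`, `IrrOn_ne`,
`IrrOn_conj`, `IrrOn_int`, `IrrOn_fin`, `IrrOn_top`, `IrrOn_funMap`, `cc_congr_on`, `cut`, `CF_cut`, `cc_cut`,
`cc_mul_const`, `TRNb`, `SBIb`, `cls_one`, `cls_zero`, `cls_ne`, `cls_int`, `cls_congr`, `cls_inv`, `cls_CF`, `cc_cls_int`,
`cc_cls_top`, `SB_top_iff`, `funMap_mul`, `funMap_apply`, `mem_cj`, `conj_mem_cj`, `cj_mul`, `cj_inv_cj`, `cj_mono`,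
`cj_self`, `cj_nz`, `card_cj`, `cj_pgroup`, `cj_cz`, `mem_Cz`, `cj_Cz`, `SB_conj`, `SB_inner`, `funMap_inner`,
`Induces_funMap`, `card_fib`, `sum_cls`, `cc_cls`, `mem_TT`, `cz_le_nz`, `cz_le_TT`, `le_cz_of_com`, `cz_mono`,
`cz_sup_zpowers`, and from `Defs.lean` `SB.refl`, `SB.symm`, `SB.trans`, `cc_funMap`, `cz_conj`, `CF_conj`.
`cj g K = K.map (MulAut.conj g).toMonoidHom` (definition in `helper12/OB/Defs`, defeq).
-/

set_option autoImplicit false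

namespace Pool.Agent.FI

open Pool.Agent.helper58.DC Pool.Agent.DI Pool.Agent.GR Pool.Agent.OB

section

variable {G : Type} [Group G]

/-- The characters `ψ` of `H` (a subgroup of `L`) whose block induces in `L` to the block of the central character of `φ`.
`BR M L φ L = Bl M L φ` by definition. -/
def BR (M : Ideal (integralClosure ℤ ℂ)) (L : Subgroup G) (φ : G → ℂ) (H : Subgroup G) : Set (G → ℂ) :=
  {ψ | ψ ∈ IrrOn H ∧ SB M L ψ φ}

/-- `BR` is a union of blocks of `H`. -/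
theorem BCR {M : Ideal (integralClosure ℤ ℂ)} {L H : Subgroup G} (hHL : H ≤ L) (φ : G → ℂ) :
    BC M H (BR M L φ H) := by
  refine ⟨fun ψ hψ => hψ.1, fun ψ hψ ψ' hψ' h => ⟨hψ', ?_⟩⟩
  have h1 : SB M L ψ ψ' := TRNb hHL (fun x hx => IrrOn_zero hψ.1 hx) (fun x hx => IrrOn_zero hψ' hx) h
  exact h1.symm.trans hψ.2

theorem BR_top [Finite G] {p : ℕ} {M : Ideal (integralClosure ℤ ℂ)} (hS : Setup p M) (χ : G → ℂ)
    (H : Subgroup G) : BR M ⊤ χ H = Blk M χ H := by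
  ext ψ
  exact and_congr_right fun _ => SB_top_iff hS

theorem BR_self {M : Ideal (integralClosure ℤ ℂ)} (L : Subgroup G) (φ : G → ℂ) :
    BR M L φ L = Bl M L φ := rfl

/-- The sum of the `t a t⁻¹`, `t ∈ L / R` (`a` invariant under conjugation by `R`). -/
noncomputable def trL (L R : Subgroup G) (a : G → ℂ) (y : G) : ℂ :=
  (∑ᶠ t ∈ (L : Set G), a (t⁻¹ * y * t)) / Nat.card R

end

/-- **ORD** (short-medium, pure). Sums over orbits, divided by `N`. Proof: `X` is the disjoint union of the orbits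
`{ρ g x | g}`, `F` is constant on an orbit, and the orbit of `x` has `|Γ| / |{g | ρ g x = x}|` elements (orbit-stabiliser;
`MulAction` of `Γ` on `X` by `ρ`, `MulAction.selfEquivSigmaOrbits`, `MulAction.card_orbit_mul_card_stabilizer_eq_card_group`;
or strong induction on the number of the `x` with `F x ≠ 0`, removing one orbit). So `(∑ F) / N` is the sum over the orbits
with `F ≠ 0` of `(|orbit| / N) * F(x)`, where `|orbit| / N` is a natural number by the divisibility (and divisible by `p` in the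
second item): use `IntAt.sum`, `InM.sum`, `InM.natCast`. -/
def ORD_stmt : Prop :=
  ∀ (p : ℕ) (M : Ideal (integralClosure ℤ ℂ)), Setup p M → ∀ (Γ X : Type) [Group Γ] [Finite Γ] [Finite X]
    (ρ : Γ →* Equiv.Perm X) (N : ℕ), N ≠ 0 → ∀ F : X → ℂ, (∀ x, IntAt M (F x)) → (∀ g x, F (ρ g x) = F x) →
    ((∀ x, F x ≠ 0 → N * Nat.card {g : Γ // ρ g x = x} ∣ Nat.card Γ) → IntAt M ((∑ᶠ x, F x) / N)) ∧
    ((∀ x, F x ≠ 0 → N * p * Nat.card {g : Γ // ρ g x = x} ∣ Nat.card Γ) → InM M ((∑ᶠ x, F x) / N)) ∧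
    ((∀ x, F x ≠ 0 → N * Nat.card {g : Γ // ρ g x = x} ∣ Nat.card Γ) → (∀ x, InM M (F x)) →
      InM M ((∑ᶠ x, F x) / N))

/-- **CVS** (short-medium). Splitting a `T`-invariant function into classes. `ψ` is any function. Proof: suppose for all `y` `q y` or `cc ψ (cls T y)`
is `InM`; then `q y * cc ψ (cls T y)` is `InM` for all `y` (`InM.mul_left`). Strong induction on the number of the `y` with
`q y ≠ 0` shows `InM M (cc ψ q)`: if `q y ≠ 0` put `q' = q - q y • cls T y`; it is `T`-invariant (`cls_inv`), zero on the class of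
`y` and equal to `q` elsewhere (`cls_ne`: `q` is constant on the class), so it satisfies the same hypotheses, and
`cc ψ q = cc ψ q' + q y * cc ψ (cls T y)`. -/
def CVS_stmt : Prop :=
  ∀ (p : ℕ) (M : Ideal (integralClosure ℤ ℂ)), Setup p M → ∀ (G : Type) [Group G] [Finite G]
    (T : Subgroup G) (ψ q : G → ℂ), (∀ t ∈ T, ∀ y, q (t * y * t⁻¹) = q y) → (∀ y, IntAt M (q y)) →
    (∀ y, IntAt M (cc ψ (cls T y))) → ¬ InM M (cc ψ q) →
    ∃ y, ¬ InM M (q y) ∧ ¬ InM M (cc ψ (cls T y))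

/-- **IVS** (short). Invariance of `eS`. Proof: `eS H S (g x g⁻¹) = |H|⁻¹ ∑_{ψ ∈ S} ψ 1 * ψ (g x⁻¹ g⁻¹)`, and
`ψ (g x⁻¹ g⁻¹) = (funMap (conj g⁻¹) ψ) x⁻¹` (`funMap_apply`), `ψ 1 = (funMap (conj g⁻¹) ψ) 1`. `S` is finite (`IrrOn_fin`) and
`funMap (conj g)` maps `S` to `S` injectively (its inverse is `funMap (conj g⁻¹)`, `funMap_mul`), so it is a bijection of `S`, and so
is its inverse (`finsum_mem_eq_of_bijOn`). -/
def IVS_stmt : Prop :=
  ∀ (G : Type) [Group G] [Finite G] (H : Subgroup G) (S : Set (G → ℂ)), S ⊆ IrrOn H → ∀ g : G,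
    (∀ ψ ∈ S, funMap (MulAut.conj g) ψ ∈ S) → ∀ x, eS H S (g * x * g⁻¹) = eS H S x

/-- **EQO** (medium; copy of EQL of GR, file `Pool/Agent/helper70/GR/EQL.lean`). Proof: as EQL, with `Blk M χ` replaced by `BR M L φ`. Let
`K = Cz H y`, `e = eS H (BR M L φ H)`, `f = eS K (BR M L φ K)`, `e' = rs y e`, values `IntAt` (EIN of GR with `BCR`). BRH and
`cv e e = e` (IDM): `cv e' e' - e'` has values `InM`; `cv f f = f`, `cv e' f = cv f e'` (CVF); so `z = e' - f` satisfies: `cv (cv z z) z - z`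
has values `InM`. For `η ∈ IrrOn K` take `ψ ∈ IrrOn H` from LIF: `InM (cc η z - cc ψ z)` for all `CF H z` with values `IntAt`. Then
`SB M L η ψ`: for `CF L z` integral, `cc η z = cc η (cut H z)`, `cc ψ z = cc ψ (cut H z)` (`cc_cut`), `cut H z` is `CF H`
(`CF_cut`), and both numbers are integral (C3 of DI, `InM.mcong`). So `η ∈ BR M L φ K ↔ ψ ∈ BR M L φ H`, and by IDM
`cc η f = cc ψ e` (both are `1` or both `0`) which is congruent to `cc η e = cc η e'`. So `cc η z` is `InM` for all `η`; NIL. -/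
def EQO_stmt : Prop :=
  ∀ (p : ℕ) (M : Ideal (integralClosure ℤ ℂ)), Setup p M → ∀ (G : Type) [Group G] [Finite G]
    (L H : Subgroup G), H ≤ L → ∀ y ∈ H, PEl p y → ∀ φ : G → ℂ, ∀ x ∈ Cz H y,
    InM M (eS H (BR M L φ H) x - eS (Cz H y) (BR M L φ (Cz H y)) x)

/-- **EQR** (short; from EQO). Iteration. Proof: for a finite subset `s` of `Q` let `K s = H ⊓ Subgroup.centralizer s`. By
`Finset.induction_on`: for `s ⊆ Q` and `x ∈ K s` the difference of `eS H (BR M L φ H) x` and `eS (K s) (BR M L φ (K s)) x` is `InM`. Step: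
`K (insert y s) = Cz (K s) y`, `y ∈ K s` as `Q ≤ H` is commutative, `PEl p y` as `Q` is a `p`-group; EQO for `K s ≤ L` and
`InM.add`. Take all of `Q`. -/
def EQR_stmt : Prop :=
  ∀ (p : ℕ) (M : Ideal (integralClosure ℤ ℂ)), Setup p M → ∀ (G : Type) [Group G] [Finite G]
    (L H Q : Subgroup G), H ≤ L → Q ≤ H → IsPGroup p Q → (∀ c ∈ Q, ∀ d ∈ Q, c * d = d * c) →
    ∀ φ : G → ℂ, ∀ x ∈ H ⊓ cz Q,
    InM M (eS H (BR M L φ H) x - eS (H ⊓ cz Q) (BR M L φ (H ⊓ cz Q)) x)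

/-- EQP: the case `L = ⊤` (proved below from EQR). -/
def EQP_stmt : Prop :=
  ∀ (p : ℕ) (M : Ideal (integralClosure ℤ ℂ)), Setup p M → ∀ (G : Type) [Group G] [Finite G]
    (H Q : Subgroup G), Q ≤ H → IsPGroup p Q → (∀ c ∈ Q, ∀ d ∈ Q, c * d = d * c) →
    ∀ χ : G → ℂ, ∀ x ∈ H ⊓ cz Q,
    InM M (eS H (Blk M χ H) x - eS (H ⊓ cz Q) (Blk M χ (H ⊓ cz Q)) x)

theorem EQP (hEQR : EQR_stmt) : EQP_stmt := by
  intro p M hS G _ _ H Q hQ hp hc χ x hx
  rw [← BR_top hS, ← BR_top hS]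
  exact hEQR p M hS G ⊤ H Q le_top hQ hp hc χ x hx

/-- **FWV** (short; from C4 of DI, first item). Proof: `fun x => f (x * w⁻¹)` is `cv f d` with `d x = if x = w then 1 else 0`
(`x⁻¹ * g = w` iff `x = g * w⁻¹`), and `cc η (cv f d) = cc η f * cc η d`, `cc η d = η w / η 1`. -/
def FWV_stmt : Prop :=
  ∀ (G : Type) [Group G] [Finite G] (C : Subgroup G), ∀ η ∈ IrrOn C, ∀ f : G → ℂ, CF C f → ∀ w ∈ C,
    cc η (fun x => f (x * w⁻¹)) = cc η f * (η w / η 1)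

/-- **FWB** (medium; from ORD). Coset sums. Proof. (1) `trL (l y l⁻¹)`: replace `t` by `l t`; outside `L` all summands are 0. (2) `IntAt`: ORD,
first item, for `Γ = R`, `X = G`, `ρ r t = t r⁻¹`, `F t = if t ∈ L then a (t⁻¹ y t) else 0`, `N = |R|`; the stabilisers are
trivial, `F (t r⁻¹) = a (r (t⁻¹ y t) r⁻¹) = F t`. (3) ORD, second item, for `Γ = S × R` (the subgroups as types), `X = G`,
`ρ (s, r) t = s t r⁻¹`, `N = |R|`, `F t = if t ∈ L and not (∀ s ∈ S, t⁻¹ s t ∈ R) then a (t⁻¹ y t) else 0`: invariant as `s ∈ S`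
commutes with `y` and `S ≤ L`. The stabiliser of `t` is `{(s, t⁻¹ s t) | s ∈ S, t⁻¹ s t ∈ R}`, as large as the subgroup
`{s ∈ S | t⁻¹ s t ∈ R}` of the `p`-group `S`, a proper one if `F t ≠ 0`, so `p` times its order divides `|S|`. The difference in
the claim is `(∑ F) / |R|`. -/
def FWB_stmt : Prop :=
  ∀ (p : ℕ) (M : Ideal (integralClosure ℤ ℂ)), Setup p M → ∀ (G : Type) [Group G] [Finite G]
    (L R : Subgroup G), R ≤ L → IsPGroup p R → ∀ a : G → ℂ, (∀ x, IntAt M (a x)) →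
    (∀ x, x ∉ L → a x = 0) → (∀ r ∈ R, ∀ x, a (r * x * r⁻¹) = a x) →
    CF L (trL L R a) ∧ (∀ x, IntAt M (trL L R a x)) ∧
    ∀ S : Subgroup G, IsPGroup p S → ∀ y, S ≤ Cz L y →
      InM M (trL L R a y -
        (∑ᶠ t ∈ {t : G | t ∈ L ∧ ∀ s ∈ S, t⁻¹ * s * t ∈ R}, a (t⁻¹ * y * t)) / Nat.card R)

/-- **FWC** (medium; from FWB, FWV, CCI, IDM, EIN of GR). Proof. `C = cz R`, `f = eS C (Bl M C θ)` (`CF C f`, values `IntAt` by EIN with `BCR le_rfl`),
`a x = f (x * w⁻¹)`, `q = trL L R a`. `R ≤ C ≤ L` (`le_cz_of_com`). `a` is zero outside `C`, invariant under `R` (`r ∈ R` commutes with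
`w`, and `f` is `C`-invariant). FWB gives the first two items; third item: if `¬ InM (q y)` then the sum in FWB is not
`InM`, so some `t` has `t⁻¹ s t ∈ R` for all `s ∈ S`, and `|S| ≤ |R|`. Last item: let `N = {t ∈ L | t ∈ nz R}` and
`q' y = (∑_{t ∈ N} a (t⁻¹ y t)) / |R|`. For `y ∈ C` FWB with `S = R` (`R ≤ Cz L y`) says `InM (q y - q' y)` (for finite `R`
`∀ s ∈ R, t⁻¹ s t ∈ R` means `t ∈ nz R`). `q' y = 0` for `y ∉ C` (`t ∈ nz R` normalises `C`, `cz_conj`) and `q'` is `C`-invariant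
(replace `t` by `c t`). So `cut C q - q'` is `C`-invariant with values `InM`, and `InM (cc η q - cc η q')` by `cc_cut` and CCI (3). And
`cc η q' = |R|⁻¹ ∑_{t ∈ N} cc η (fun y => a (t⁻¹ y t)) = |R|⁻¹ ∑_{t ∈ N} cc (funMap (conj t⁻¹) η) a` (`cc_funMap`), where
`η_t = funMap (conj t⁻¹) η ∈ IrrOn C` (`IrrOn_funMap`, `cj_cz`, `cj_nz`), so `cc η_t a = cc η_t f * (η_t w / η_t 1)` (FWV),
`cc η_t f` is `1` if `η_t ∈ Bl M C θ` and `0` otherwise (IDM), and `η_t w = η (t w t⁻¹)`. -/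
def FWC_stmt : Prop :=
  ∀ (p : ℕ) (M : Ideal (integralClosure ℤ ℂ)), Setup p M → ∀ (G : Type) [Group G] [Finite G]
    (L R : Subgroup G), IsPGroup p R → (∀ c ∈ R, ∀ d ∈ R, c * d = d * c) → cz R ≤ L →
    ∀ θ ∈ IrrOn (cz R), ∀ w ∈ cz R, ∃ q : G → ℂ, CF L q ∧ (∀ x, IntAt M (q x)) ∧
    (∀ y, ¬ InM M (q y) → ∀ S : Subgroup G, IsPGroup p S → S ≤ Cz L y → Nat.card S ≤ Nat.card R) ∧
    ∀ η ∈ IrrOn (cz R), InM M (cc η q -
      (∑ᶠ t ∈ {t : G | t ∈ L ∧ t ∈ nz R ∧ SB M (cz R) (funMap (MulAut.conj t⁻¹) η) θ},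
        η (t * w * t⁻¹) / η 1) / Nat.card R)

/-- **FWD** (medium; from ORD). Proof. `C = cz R`, `m = |Cz C w|`; `R ≤ Cz C w` so `k₀ = m / |R|` is exact. For `t ∈ T ≤ TT`: `t` normalises `C`, so
`|Cz C (t w t⁻¹)| = m` (`cj_Cz`, `cj_self`-like: `cj t C = C` by `cj_cz`, `cj_nz`) and `cc_cls` gives
`θ (t w t⁻¹) / θ 1 = (m / |C|) * F t` with `F t = cc θ (cls C (t w t⁻¹))`. So the first number is `k₀ * |C|⁻¹ ∑_{t ∈ T} F t`, and the second is
`k₀ * |C|⁻¹ ∑_{t ∈ T} F 1` (`|T| = |C| * relIndex`). `F t = cc (funMap (conj t⁻¹) θ) (cls C w)` is congruent to `F 1` because `t⁻¹ ∈ TT`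
(definition of `TT`, `InM.of_mcong`); so `F t - F 1` is `InM`. `F (c t) = F t` for `c ∈ C` (`cls_congr`). ORD, third item, with `Γ = C`
acting on `G` by left multiplication (trivial stabilisers), `N = |C|` and the function `F t - F 1` on `T`, `0` outside. -/
def FWD_stmt : Prop :=
  ∀ (p : ℕ) (M : Ideal (integralClosure ℤ ℂ)), Setup p M → ∀ (G : Type) [Group G] [Finite G]
    (R T : Subgroup G), (∀ c ∈ R, ∀ d ∈ R, c * d = d * c) → ∀ θ ∈ IrrOn (cz R), cz R ≤ T →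
    T ≤ TT M R θ → ∀ w ∈ cz R,
    InM M ((∑ᶠ t ∈ (T : Set G), θ (t * w * t⁻¹) / θ 1) / Nat.card R -
      ((cz R).relIndex T : ℂ) * ((Nat.card (Cz (cz R) w) / Nat.card R : ℕ) : ℂ) * cc θ (cls (cz R) w))

/-- **FWA** (short-medium; from FWC, FWD). Proof. `q` from FWC. Fourth item: the set in FWC is empty (`n = t⁻¹`), the sum is 0. Fifth item: for `η = θ` the set is
`T = TT M R θ ⊓ L` (`t⁻¹ ∈ TT ↔ t ∈ TT`, `t ∈ nz R ↔ t⁻¹ ∈ nz R`); FWD. -/
def FWA_stmt : Prop :=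
  ∀ (p : ℕ) (M : Ideal (integralClosure ℤ ℂ)), Setup p M → ∀ (G : Type) [Group G] [Finite G]
    (L R : Subgroup G), IsPGroup p R → (∀ c ∈ R, ∀ d ∈ R, c * d = d * c) → cz R ≤ L →
    ∀ θ ∈ IrrOn (cz R), ∀ w ∈ cz R, ∃ q : G → ℂ, CF L q ∧ (∀ x, IntAt M (q x)) ∧
    (∀ y, ¬ InM M (q y) → ∀ S : Subgroup G, IsPGroup p S → S ≤ Cz L y → Nat.card S ≤ Nat.card R) ∧
    (∀ η ∈ IrrOn (cz R), (∀ n ∈ L, n ∈ nz R → ¬ SB M (cz R) (funMap (MulAut.conj n) η) θ) →
      InM M (cc η q)) ∧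
    InM M (cc θ q - ((cz R).relIndex (TT M R θ ⊓ L) : ℂ) *
      ((Nat.card (Cz (cz R) w) / Nat.card R : ℕ) : ℂ) * cc θ (cls (cz R) w))

/-- **FMT** (short-medium; from FWA, CVS). Proof. FWA with `L = ⊤`. `k₀ = |Cz (cz R) w| / |R|` is prime to `p` (`|R|` is the `p`-part), so `cc θ q` is not `InM`
(`InM.or`, `InM.natCast`; everything is `IntAt`: `cc_cls_int`). `SBIb` with `SB_top_iff`: `cc χ q` is congruent to `cc θ q`, so it is not `InM`. CVS for
`T = ⊤`, `ψ = χ`: `y` with `¬ InM (q y)`, `¬ InM (cc χ (cls ⊤ y))`, and this is `omega χ y` (`cc_cls_top`). Let `S` be a Sylow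
`p`-subgroup of `centralizer {y} = Cz ⊤ y` (mapped to `G`), `|S| = pp p (centralizer {y})`; third item of FWA. -/
def FMT_stmt : Prop :=
  ∀ (p : ℕ) (M : Ideal (integralClosure ℤ ℂ)), Setup p M → ∀ (G : Type) [Group G] [Finite G],
    ∀ χ ∈ Irr G, ∀ R : Subgroup G, IsPGroup p R → (∀ c ∈ R, ∀ d ∈ R, c * d = d * c) →
    ∀ θ ∈ IrrOn (cz R), Induces M θ χ → ∀ w ∈ cz R, Nat.card R = pp p (Cz (cz R) w) →
    ¬ InM M (cc θ (cls (cz R) w)) → ¬ p ∣ (cz R).relIndex (TT M R θ) →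
    ∃ y : G, ¬ InM M (omega χ y) ∧ pp p (Subgroup.centralizer ({y} : Set G)) ≤ Nat.card R

/-- **EXC** (medium; from ORD). The class sum of a larger group. Proof. `F t = cc θ (cls C (t y t⁻¹))` for `t ∈ T`. Let `Z = Cz T y`, `m = |Cz C y|`, `N = |C| |Z| / m`
(an integer, `m` divides `|C|`), the order of the subgroup `C Z` of `T` (`C` is normalised by `T`), so `N` divides `|T|`; `k = |T| / N`.
(1) `∑_{t ∈ T} cls C (t y t⁻¹) x = N * cls T y x`: the `t ∈ T` with `t y t⁻¹` in the `C`-class of `x`; if `x` is in the `T`-class of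
`y` then by `card_fib` there are `|Z|` of them for each of the `|C| / m` elements of the `C`-class of `x`
(`|Cz C (t y t⁻¹)| = m`, `cj_Cz`, `cj t C = C`). So `cc θ (cls T y) - k * cc θ (cls C y) = N⁻¹ ∑_{t ∈ T} (F t - F 1)`. (2) `F t - F 1` is `InM`:
`F t = cc (funMap (conj t⁻¹) θ) (cls C y)` (`cc_funMap`) and the hypothesis for `t⁻¹`. (3) ORD, third item: `Γ = C × Z`,
`ρ (c, d) t = c t d⁻¹` on `X = G`, function `F t - F 1` on `T`, `0` outside; invariant by `cls_congr`. The stabiliser of `t ∈ T`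
is `{(t d t⁻¹, d) | d ∈ Z, t d t⁻¹ ∈ C}`, and `t d t⁻¹ ∈ C ↔ d ∈ C`: it has `m` elements, `N * m = |C| |Z|`. -/
def EXC_stmt : Prop :=
  ∀ (p : ℕ) (M : Ideal (integralClosure ℤ ℂ)), Setup p M → ∀ (G : Type) [Group G] [Finite G]
    (C T : Subgroup G), C ≤ T → (∀ t ∈ T, ∀ c ∈ C, t * c * t⁻¹ ∈ C) → ∀ θ ∈ IrrOn C,
    (∀ t ∈ T, SB M C (funMap (MulAut.conj t) θ) θ) → ∀ y ∈ C,
    ∃ k : ℕ, k * (Nat.card C * Nat.card (Cz T y)) = Nat.card T * Nat.card (Cz C y) ∧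
      InM M (cc θ (cls T y) - k * cc θ (cls C y))

/-- **EXA** (medium; from CVS, EXC, IVS, and IDM, EIN, CCI of GR). Proof. `C = cz R`, `T = TT M R θ`, `f = eS C (Bl M C θ)`, values `IntAt` (EIN, `BCR le_rfl`). `f` is
`T`-invariant: IVS, as `ψ ∈ Bl M C θ`, `t ∈ T` give `funMap (conj t) ψ ∈ IrrOn C` (`IrrOn_funMap`, `cj_cz`, `cj_nz`) and
`SB M C (funMap (conj t) ψ) θ` (`SB_conj` for `cj t C = C`, `SB.trans` with the definition of `T`). `cc θ f = 1` (IDM, `θ ∈ Bl`). CVS for `T`, `ψ = θ`,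
`q = f` (`cc θ (cls T y)` is integral, `cc_cls_int cz_le_TT`): `y` with `f y`, `cc θ (cls T y)` not `InM`; `y ∈ C` as `f y ≠ 0`. EXC: `p` does not
divide `k`, i.e. `p` does not divide `|T| |C_C(y)| / (|C| |C_T(y)|)`. Let `R'` be a Sylow `p`-subgroup of `Cz T y` (mapped to `G`). `R ≤ Cz T y`
(`R ≤ C ≤ T`, `y ∈ cz R`) is normalised by `T ≤ nz R`, so `R ≤ R'` (the product `R R'` is a `p`-group). If `R' ≤ C` then `R' ≤ Cz C y ≤ Cz T y`, so
`|C_T(y)| / |C_C(y)|` is prime to `p`, and `|T| / |C| = k |C_T(y)| / |C_C(y)|` would be prime to `p`; but it is `relIndex`. -/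
def EXA_stmt : Prop :=
  ∀ (p : ℕ) (M : Ideal (integralClosure ℤ ℂ)), Setup p M → ∀ (G : Type) [Group G] [Finite G]
    (R : Subgroup G), IsPGroup p R → (∀ c ∈ R, ∀ d ∈ R, c * d = d * c) → ∀ θ ∈ IrrOn (cz R),
    p ∣ (cz R).relIndex (TT M R θ) → ∃ y ∈ cz R, ∃ R' : Subgroup G, IsPGroup p R' ∧ R ≤ R' ∧
      R' ≤ Cz (TT M R θ) y ∧ ¬ R' ≤ cz R ∧ ¬ InM M (eS (cz R) (Bl M (cz R) θ) y)

/-- **EXT** (medium; from EXA, EQP, ORD, IVS, and IDM, EIN, EXP, CVF, CCI of GR). Proof. `y`, `R'` from EXA, `C = cz R`, `f = eS C (Bl M C θ)`, `F = eS C (Blk M χ C)`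
(values `IntAt`: EIN with `BCR`, BCL of GR). `Bl M C θ ⊆ Blk M χ C` (`TRNb` to `⊤`, `SB_top_iff`), so `cv F f = f` (EXP of GR: same `cc` by CCI (2) and
IDM). `f y = ∑_a F a * f (a⁻¹ y)` is not `InM`. The summand is invariant under conjugation of `a` by `r ∈ R'`: `F (r a r⁻¹) = F a` (IVS; `r ∈ nz R`,
`Blk M χ C` is stable by `Induces_funMap`, `IrrOn_funMap`), and `f ((r a r⁻¹)⁻¹ y) = f (r (a⁻¹ y) r⁻¹) = f (a⁻¹ y)` as `r` commutes with `y` and `f` is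
`TT`-invariant (as in EXA). ORD, second item, `Γ = R'` acting on `G` by conjugation, `N = 1`, summand on the `a ∉ cz R'` (the stabiliser is a
proper subgroup of the `p`-group `R'`): the sum over the `a ∈ cz R'` is not `InM`, so `¬ InM (F a)` for some `a ∈ cz R'`. `a ∈ cz R` as `R ≤ R'`. EQP for
`H = ⊤`, `Q = R` (`⊤ ⊓ cz R = cz R`): `¬ InM (eS ⊤ (Blk M χ ⊤) a)`. -/
def EXT_stmt : Prop :=
  ∀ (p : ℕ) (M : Ideal (integralClosure ℤ ℂ)), Setup p M → ∀ (G : Type) [Group G] [Finite G],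
    ∀ χ ∈ Irr G, ∀ R : Subgroup G, IsPGroup p R → (∀ c ∈ R, ∀ d ∈ R, c * d = d * c) →
    ∀ θ ∈ IrrOn (cz R), Induces M θ χ → p ∣ (cz R).relIndex (TT M R θ) →
    ∃ R' : Subgroup G, IsPGroup p R' ∧ R ≤ R' ∧ ¬ R' ≤ cz R ∧
      ∃ a ∈ cz R', ¬ InM M (eS ⊤ (Blk M χ ⊤) a)

end Pool.Agent.FI
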