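import Pool.Agent.helper12.FI.Defs
import Pool.Agent.helper14.DI.C3
import Pool.Agent.helper54.DI.B2
import Pool.Agent.helper64.DI.B1
import Pool.Agent.helper64.DC.IF
import Pool.Agent.helper11.DC.IRF
import Pool.Agent.helper30.DC.IRT
import Pool.Agent.helper31.DC.TI

/-!
# Project fi (MP_baa4d7_al): proved basic facts for blocks A1, A2

`SBIb`, `TRNb`, `SB_top_iff`, facts on `cls`, transport by conjugation.
`cj g K` (of `helper12/OB/Defs`) is the conjugate `g K g⁻¹`.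
-/

set_option autoImplicit false

namespace Pool.Agent.FI

open Pool.Agent.helper58.DC Pool.Agent.DI Pool.Agent.GR Pool.Agent.OB

section

variable {G : Type} [Group G]

/-! ### irreducible characters of subgroups -/

theorem IrrOn_zero {L : Subgroup G} {ψ : G → ℂ} (h : ψ ∈ IrrOn L) {x : G} (hx : x ∉ L) : ψ x = 0 :=
  h.1 x hx

theorem IrrOn_pos [Finite G] {L : Subgroup G} {ψ : G → ℂ} (h : ψ ∈ IrrOn L) :
    ∃ n : ℕ, 0 < n ∧ ψ 1 = n ∧ n ∣ Nat.card L := ((B2 B1 G L).2 ψ h).1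

theorem IrrOn_ne [Finite G] {L : Subgroup G} {ψ : G → ℂ} (h : ψ ∈ IrrOn L) : ψ 1 ≠ 0 := by
  obtain ⟨n, hn, e, -⟩ := IrrOn_pos h
  rw [e]
  exact_mod_cast hn.ne'

theorem IrrOn_conj [Finite G] {L : Subgroup G} {ψ : G → ℂ} (h : ψ ∈ IrrOn L) {l : G} (hl : l ∈ L)
    (x : G) : ψ (l * x * l⁻¹) = ψ x := ((B2 B1 G L).2 ψ h).2.1 x l hl

theorem IrrOn_int [Finite G] {L : Subgroup G} {ψ : G → ℂ} (h : ψ ∈ IrrOn L) (x : G) :
    IsIntegral ℤ (ψ x) := ((B2 B1 G L).2 ψ h).2.2.1 x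

theorem IrrOn_fin [Finite G] (L : Subgroup G) : (IrrOn L).Finite := (B2 B1 G L).1

theorem IrrOn_top {χ : G → ℂ} : χ ∈ IrrOn (⊤ : Subgroup G) ↔ χ ∈ Irr G :=
  Pool.Agent.helper31.DC.TI Pool.Agent.helper30.DC.IRT G χ

theorem IrrOn_funMap [Finite G] {L : Subgroup G} {ψ : G → ℂ} (h : ψ ∈ IrrOn L) (g : G) :
    funMap (MulAut.conj g) ψ ∈ IrrOn (cj g L) :=
  ((Pool.Agent.helper64.DC.IF Pool.Agent.helper11.DC.IRF Pool.Agent.helper30.DC.IRT G L).2 ψ h).2.2 _

/-! ### `cc` -/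

theorem cc_congr_on {H : Subgroup G} {ψ z z' : G → ℂ} (hψ : ∀ x, x ∉ H → ψ x = 0)
    (h : ∀ x ∈ H, z x = z' x) : cc ψ z = cc ψ z' := by
  unfold cc
  congr 1
  refine finsum_congr fun x => ?_
  by_cases hx : x ∈ H
  · rw [h x hx]
  · rw [hψ x hx]
    ring

open Classical in
/-- the restriction of `z` to `H`, extended by zero -/
noncomputable def cut (H : Subgroup G) (z : G → ℂ) : G → ℂ := fun x => if x ∈ H then z x else 0

theorem cut_mem {H : Subgroup G} {z : G → ℂ} {x : G} (hx : x ∈ H) : cut H z x = z x := by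
  simp [cut, hx]

theorem cut_not {H : Subgroup G} {z : G → ℂ} {x : G} (hx : x ∉ H) : cut H z x = 0 := by
  simp [cut, hx]

theorem CF_cut {H L : Subgroup G} (hHL : H ≤ L) {z : G → ℂ} (hz : ∀ l ∈ L, ∀ x, z (l * x * l⁻¹) = z x) :
    CF H (cut H z) := by
  refine ⟨fun h hh x => ?_, fun x hx => cut_not hx⟩
  by_cases hx : x ∈ H
  · have h1 : h * x * h⁻¹ ∈ H := H.mul_mem (H.mul_mem hh hx) (H.inv_mem hh)
    rw [cut_mem h1, cut_mem hx, hz h (hHL hh)]
  · have h1 : h * x * h⁻¹ ∉ H := by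
      intro h2
      apply hx
      have h3 := H.mul_mem (H.mul_mem (H.inv_mem hh) h2) hh
      have h4 : h⁻¹ * (h * x * h⁻¹) * h = x := by group
      rwa [h4] at h3
    rw [cut_not h1, cut_not hx]

theorem cc_cut {H : Subgroup G} {ψ : G → ℂ} (hψ : ∀ x, x ∉ H → ψ x = 0) (z : G → ℂ) :
    cc ψ (cut H z) = cc ψ z := cc_congr_on hψ fun _ hx => cut_mem hx

theorem cc_mul_const [Finite G] (ψ z : G → ℂ) (b : ℂ) : cc ψ (fun x => z x * b) = cc ψ z * b := by
  unfold cc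
  have h : ∑ᶠ x, z x * b * ψ x = (∑ᶠ x, z x * ψ x) * b := by
    rw [finsum_mul' _ _ (Set.toFinite _)]
    exact finsum_congr fun x => by ring
  rw [h]
  ring

/-- **TRNb**: induction of the block relation from a subgroup. -/
theorem TRNb {M : Ideal (integralClosure ℤ ℂ)} {H L : Subgroup G} (hHL : H ≤ L) {η ψ : G → ℂ}
    (hη : ∀ x, x ∉ H → η x = 0) (hψ : ∀ x, x ∉ H → ψ x = 0) (h : SB M H η ψ) : SB M L η ψ := by
  intro z hz hi
  have h1 : ∀ x, IsIntegral ℤ (cut H z x) := by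
    intro x
    by_cases hx : x ∈ H
    · rw [cut_mem hx]
      exact hi x
    · rw [cut_not hx]
      exact isIntegral_zero
  have h2 := h (cut H z) (CF_cut hHL hz.1) h1
  rwa [cc_cut hη, cc_cut hψ] at h2

/-- **SBIb**: the block relation for functions with values in the local ring. -/
theorem SBIb [Finite G] {p : ℕ} {M : Ideal (integralClosure ℤ ℂ)} (hS : Setup p M) {L : Subgroup G}
    {η ψ : G → ℂ} (h : SB M L η ψ) {z : G → ℂ} (hz : CF L z) (hi : ∀ x, IntAt M (z x)) :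
    InM M (cc η z - cc ψ z) := by
  classical
  have := Fintype.ofFinite G
  obtain ⟨b, hb, hb'⟩ := IntAt.common hS (Finset.univ : Finset G) (f := z) fun i _ => hi i
  have hCF : CF L (fun x => z x * (b : ℂ)) := by
    refine ⟨fun l hl x => ?_, fun x hx => ?_⟩
    · change z (l * x * l⁻¹) * (b : ℂ) = z x * b
      rw [hz.1 l hl x]
    · change z x * (b : ℂ) = 0
      rw [hz.2 x hx, zero_mul]
  obtain ⟨c, hc, e⟩ := h (fun x => z x * (b : ℂ)) hCF fun x => hb' x (Finset.mem_univ x)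
  refine ⟨c, b, hc, hb, ?_⟩
  rw [← e, cc_mul_const, cc_mul_const]
  ring

/-! ### classes -/

theorem cls_one {L : Subgroup G} {y x : G} (h : ∃ l ∈ L, l * y * l⁻¹ = x) : cls L y x = 1 := by
  simp only [cls]
  rw [if_pos h]

theorem cls_zero {L : Subgroup G} {y x : G} (h : ¬ ∃ l ∈ L, l * y * l⁻¹ = x) : cls L y x = 0 := by
  simp only [cls]
  rw [if_neg h]

theorem cls_ne {L : Subgroup G} {y x : G} (h : cls L y x ≠ 0) : ∃ l ∈ L, l * y * l⁻¹ = x := by
  by_contra h1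
  exact h (cls_zero h1)

theorem cls_or (L : Subgroup G) (y x : G) : cls L y x = 1 ∨ cls L y x = 0 := by
  by_cases h : ∃ l ∈ L, l * y * l⁻¹ = x
  · exact Or.inl (cls_one h)
  · exact Or.inr (cls_zero h)

theorem cls_int (L : Subgroup G) (y x : G) : IsIntegral ℤ (cls L y x) := by
  rcases cls_or L y x with h | h
  · rw [h]
    exact isIntegral_one
  · rw [h]
    exact isIntegral_zero

theorem cls_congr {L : Subgroup G} {y y' : G} (h : ∃ l ∈ L, l * y * l⁻¹ = y') : cls L y' = cls L y := by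
  obtain ⟨l, hl, rfl⟩ := h
  funext x
  by_cases h1 : ∃ m ∈ L, m * y * m⁻¹ = x
  · rw [cls_one h1]
    obtain ⟨m, hm, rfl⟩ := h1
    exact cls_one ⟨m * l⁻¹, L.mul_mem hm (L.inv_mem hl), by group⟩
  · rw [cls_zero h1]
    refine cls_zero fun h2 => h1 ?_
    obtain ⟨m, hm, rfl⟩ := h2
    exact ⟨m * l, L.mul_mem hm hl, by group⟩

theorem cls_inv {L : Subgroup G} {l : G} (hl : l ∈ L) (y x : G) : cls L y (l * x * l⁻¹) = cls L y x := by
  by_cases h1 : ∃ m ∈ L, m * y * m⁻¹ = x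
  · rw [cls_one h1]
    obtain ⟨m, hm, rfl⟩ := h1
    exact cls_one ⟨l * m, L.mul_mem hl hm, by group⟩
  · rw [cls_zero h1]
    refine cls_zero fun h2 => h1 ?_
    obtain ⟨m, hm, h3⟩ := h2
    refine ⟨l⁻¹ * m, L.mul_mem (L.inv_mem hl) hm, ?_⟩
    have h4 : l⁻¹ * m * y * (l⁻¹ * m)⁻¹ = l⁻¹ * (m * y * m⁻¹) * l := by group
    rw [h4, h3]
    group

theorem cls_CF {L : Subgroup G} {y : G} (hy : y ∈ L) : CF L (cls L y) := by
  refine ⟨fun l hl x => cls_inv hl y x, fun x hx => cls_zero fun h => hx ?_⟩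
  obtain ⟨l, hl, rfl⟩ := h
  exact L.mul_mem (L.mul_mem hl hy) (L.inv_mem hl)

theorem cc_cls_int [Finite G] {C L : Subgroup G} (hCL : C ≤ L) {ψ : G → ℂ} (hψ : ψ ∈ IrrOn C) (y : G) :
    IsIntegral ℤ (cc ψ (cls L y)) :=
  (C3 G).1 C ψ hψ (cls L y) (fun _ hl x => cls_inv (hCL hl) y x) fun x => cls_int L y x

theorem cls_top (y : G) : cls (⊤ : Subgroup G) y = fun x => by
    classical
    exact if x ∈ conjugatesOf y then (1 : ℂ) else 0 := by
  classical
  funext x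
  by_cases h : ∃ l ∈ (⊤ : Subgroup G), l * y * l⁻¹ = x
  · rw [cls_one h]
    obtain ⟨l, -, h1⟩ := h
    have h2 : x ∈ conjugatesOf y := by
      change IsConj y x
      rw [isConj_iff]
      exact ⟨l, h1⟩
    simp [h2]
  · rw [cls_zero h]
    have h2 : x ∉ conjugatesOf y := by
      intro h3
      change IsConj y x at h3
      rw [isConj_iff] at h3
      obtain ⟨l, h1⟩ := h3
      exact h ⟨l, Subgroup.mem_top l, h1⟩
    simp [h2]

theorem cc_cls_top [Finite G] (ψ : G → ℂ) (y : G) : cc ψ (cls (⊤ : Subgroup G) y) = omega ψ y := by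
  rw [((C3 G).2.1 ψ y).1, cls_top]

/-- `SB` for the whole group is the relation `Induces`. -/
theorem SB_top_iff [Finite G] {p : ℕ} {M : Ideal (integralClosure ℤ ℂ)} (hS : Setup p M) {ψ χ : G → ℂ} :
    SB M (⊤ : Subgroup G) ψ χ ↔ Induces M ψ χ := by
  constructor
  · intro h g
    obtain ⟨c, hc, e⟩ := h (cls ⊤ g) (cls_CF (Subgroup.mem_top g)) fun x => cls_int ⊤ g x
    rw [cc_cls_top, cc_cls_top] at e
    exact ⟨c, hc, e⟩
  · intro h z hz hi
    have : Fact p.Prime := ⟨hS.pr⟩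
    exact (C3 G).2.2.1 p M hS.max hS.mem ψ χ h z ⟨fun x y => hz.1 y (Subgroup.mem_top y) x, hi⟩

/-! ### transport by conjugation -/

theorem funMap_mul (g h : G) (ψ : G → ℂ) :
    funMap (MulAut.conj (g * h)) ψ = funMap (MulAut.conj g) (funMap (MulAut.conj h) ψ) := by
  funext x
  simp [funMap, mul_assoc]

theorem funMap_one' (ψ : G → ℂ) : funMap (MulAut.conj (1 : G)) ψ = ψ := by
  funext x
  simp [funMap]

theorem funMap_apply (g : G) (ψ : G → ℂ) (x : G) : funMap (MulAut.conj g) ψ x = ψ (g⁻¹ * x * g) := by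
  unfold funMap
  rw [MulAut.conj_inv_apply]

theorem mem_cj {g : G} {K : Subgroup G} {x : G} : x ∈ cj g K ↔ g⁻¹ * x * g ∈ K := by
  unfold cj
  rw [Subgroup.mem_map]
  constructor
  · rintro ⟨y, hy, rfl⟩
    have h : g⁻¹ * (MulAut.conj g).toMonoidHom y * g = y := by
      change g⁻¹ * (g * y * g⁻¹) * g = y
      group
    rwa [h]
  · intro h
    refine ⟨_, h, ?_⟩
    change g * (g⁻¹ * x * g) * g⁻¹ = x
    group

theorem conj_mem_cj {g : G} {K : Subgroup G} {x : G} : g * x * g⁻¹ ∈ cj g K ↔ x ∈ K := by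
  rw [mem_cj]
  have h : g⁻¹ * (g * x * g⁻¹) * g = x := by group
  rw [h]

theorem cj_mul (g h : G) (K : Subgroup G) : cj (g * h) K = cj g (cj h K) := by
  ext x
  rw [mem_cj, mem_cj, mem_cj]
  have e : (g * h)⁻¹ * x * (g * h) = h⁻¹ * (g⁻¹ * x * g) * h := by group
  rw [e]

theorem cj_one (K : Subgroup G) : cj 1 K = K := by
  ext x
  rw [mem_cj]
  simp

theorem cj_inv_cj (g : G) (K : Subgroup G) : cj g⁻¹ (cj g K) = K := by
  rw [← cj_mul, inv_mul_cancel, cj_one]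

theorem cj_mono {g : G} {K K' : Subgroup G} (h : K ≤ K') : cj g K ≤ cj g K' := by
  intro x hx
  rw [mem_cj] at hx ⊢
  exact h hx

theorem cj_self {L : Subgroup G} {l : G} (hl : l ∈ L) : cj l L = L := by
  ext x
  rw [mem_cj]
  constructor
  · intro h
    have h1 := L.mul_mem (L.mul_mem hl h) (L.inv_mem hl)
    have h2 : l * (l⁻¹ * x * l) * l⁻¹ = x := by group
    rwa [h2] at h1
  · intro h
    exact L.mul_mem (L.mul_mem (L.inv_mem hl) h) hl

theorem cj_top (g : G) : cj g (⊤ : Subgroup G) = ⊤ := cj_self (Subgroup.mem_top g)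

theorem cj_nz {D : Subgroup G} {g : G} : cj g D = D ↔ g ∈ nz D := by
  rw [Subgroup.mem_normalizer_iff]
  constructor
  · intro h x
    rw [← conj_mem_cj (g := g) (K := D) (x := x), h]
  · intro h
    ext x
    rw [mem_cj]
    have h1 := h (g⁻¹ * x * g)
    have h2 : g * (g⁻¹ * x * g) * g⁻¹ = x := by group
    rw [h2] at h1
    exact h1

theorem card_cj (g : G) (K : Subgroup G) : Nat.card (cj g K) = Nat.card K := by
  unfold cj
  exact (Nat.card_congr (K.equivMapOfInjective _ (MulAut.conj g).injective).toEquiv).symm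

theorem cj_pgroup {p : ℕ} {K : Subgroup G} (g : G) (h : IsPGroup p K) : IsPGroup p (cj g K) := by
  unfold cj
  exact h.map _

theorem cj_cz (g : G) (P : Subgroup G) : cz (cj g P) = cj g (cz P) := by
  ext x
  rw [mem_cj, Subgroup.mem_centralizer_iff, Subgroup.mem_centralizer_iff]
  constructor
  · intro h y hy
    have h1 := h (g * y * g⁻¹) (conj_mem_cj.2 hy)
    calc y * (g⁻¹ * x * g) = g⁻¹ * ((g * y * g⁻¹) * x) * g := by group
      _ = g⁻¹ * (x * (g * y * g⁻¹)) * g := by rw [h1]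
      _ = g⁻¹ * x * g * y := by group
  · intro h y hy
    have h1 := h (g⁻¹ * y * g) (mem_cj.1 hy)
    calc y * x = g * ((g⁻¹ * y * g) * (g⁻¹ * x * g)) * g⁻¹ := by group
      _ = g * ((g⁻¹ * x * g) * (g⁻¹ * y * g)) * g⁻¹ := by rw [h1]
      _ = x * y := by group

theorem mem_Cz {L : Subgroup G} {y x : G} : x ∈ Cz L y ↔ x ∈ L ∧ y * x = x * y := by
  unfold Cz
  rw [Subgroup.mem_inf, Subgroup.mem_centralizer_iff]
  constructor
  · rintro ⟨h, h'⟩
    exact ⟨h, h' y rfl⟩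
  · rintro ⟨h, h'⟩
    refine ⟨h, fun z hz => ?_⟩
    rw [Set.mem_singleton_iff] at hz
    rw [hz]
    exact h'

theorem cj_Cz (g : G) (L : Subgroup G) (y : G) : Cz (cj g L) (g * y * g⁻¹) = cj g (Cz L y) := by
  ext x
  rw [mem_cj, mem_Cz, mem_Cz, mem_cj]
  refine and_congr_right fun _ => ?_
  constructor
  · intro h
    calc y * (g⁻¹ * x * g) = g⁻¹ * ((g * y * g⁻¹) * x) * g := by group
      _ = g⁻¹ * (x * (g * y * g⁻¹)) * g := by rw [h]
      _ = g⁻¹ * x * g * y := by group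
  · intro h
    calc (g * y * g⁻¹) * x = g * (y * (g⁻¹ * x * g)) * g⁻¹ := by group
      _ = g * ((g⁻¹ * x * g) * y) * g⁻¹ := by rw [h]
      _ = x * (g * y * g⁻¹) := by group

theorem SB_conj {M : Ideal (integralClosure ℤ ℂ)} {L : Subgroup G} {η ψ : G → ℂ} (h : SB M L η ψ)
    (g : G) : SB M (cj g L) (funMap (MulAut.conj g) η) (funMap (MulAut.conj g) ψ) := by
  intro z hz hi
  rw [cc_funMap, cc_funMap]
  refine h _ ⟨fun l hl x => ?_, fun x hx => ?_⟩ fun x => hi _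
  · change z (g * (l * x * l⁻¹) * g⁻¹) = z (g * x * g⁻¹)
    have h1 : g * (l * x * l⁻¹) * g⁻¹ = (g * l * g⁻¹) * (g * x * g⁻¹) * (g * l * g⁻¹)⁻¹ := by group
    rw [h1]
    exact hz.1 _ (conj_mem_cj.2 hl) _
  · exact hz.2 _ fun h1 => hx (conj_mem_cj.1 h1)

/-- Conjugation inside `L` does not change the block of `L`: `ψ` arbitrary. -/
theorem SB_inner {M : Ideal (integralClosure ℤ ℂ)} {L : Subgroup G} {l : G} (hl : l ∈ L) (ψ : G → ℂ) :
    SB M L (funMap (MulAut.conj l) ψ) ψ := by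
  intro z hz _
  refine ⟨0, M.zero_mem, ?_⟩
  rw [cc_funMap]
  have h : (fun x => z (l * x * l⁻¹)) = z := funext fun x => hz.1 l hl x
  rw [h]
  simp

theorem funMap_inner [Finite G] {L : Subgroup G} {ψ : G → ℂ} (hψ : ψ ∈ IrrOn L) {l : G} (hl : l ∈ L) :
    funMap (MulAut.conj l) ψ = ψ := by
  funext x
  rw [funMap_apply]
  have h := IrrOn_conj hψ (L.inv_mem hl) x
  rwa [inv_inv] at h

theorem Induces_funMap [Finite G] {p : ℕ} {M : Ideal (integralClosure ℤ ℂ)} (hS : Setup p M)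
    {ψ χ : G → ℂ} (h : Induces M ψ χ) (g : G) : Induces M (funMap (MulAut.conj g) ψ) χ := by
  rw [← SB_top_iff hS] at h ⊢
  exact (SB_inner (Subgroup.mem_top g) ψ).trans h

/-- Functions with values outside a subgroup equal to zero. -/
theorem funMap_zero {L : Subgroup G} {ψ : G → ℂ} (h : ∀ x, x ∉ L → ψ x = 0) (g : G) :
    ∀ x, x ∉ cj g L → funMap (MulAut.conj g) ψ x = 0 := by
  intro x hx
  rw [funMap_apply]
  exact h _ fun h1 => hx (mem_cj.2 h1)

/-! ### sums over classes -/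

theorem card_fib [Finite G] (L : Subgroup G) (y x : G) :
    (Nat.card {l : G // l ∈ L ∧ l * y * l⁻¹ = x} : ℂ) = Nat.card (Cz L y) * cls L y x := by
  by_cases h : ∃ l ∈ L, l * y * l⁻¹ = x
  · rw [cls_one h, mul_one]
    obtain ⟨m, hm, rfl⟩ := h
    congr 1
    refine Nat.card_congr ⟨fun l => ⟨m⁻¹ * l.1, ?_⟩, fun c => ⟨m * c.1, ?_⟩, fun l => ?_, fun c => ?_⟩
    · obtain ⟨l, hl, e⟩ := l
      rw [mem_Cz]
      refine ⟨L.mul_mem (L.inv_mem hm) hl, ?_⟩
      have h1 : l * y = m * y * m⁻¹ * l := by rw [← e]; group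
      calc y * (m⁻¹ * l) = m⁻¹ * (m * y * m⁻¹ * l) := by group
        _ = m⁻¹ * (l * y) := by rw [h1]
        _ = m⁻¹ * l * y := by group
    · obtain ⟨c, hc⟩ := c
      rw [mem_Cz] at hc
      refine ⟨L.mul_mem hm hc.1, ?_⟩
      calc m * c * y * (m * c)⁻¹ = m * (c * y) * c⁻¹ * m⁻¹ := by group
        _ = m * (y * c) * c⁻¹ * m⁻¹ := by rw [hc.2]
        _ = m * y * m⁻¹ := by group
    · apply Subtype.ext
      change m * (m⁻¹ * l.1) = l.1
      group
    · apply Subtype.ext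
      change m⁻¹ * (m * c.1) = c.1
      group
  · rw [cls_zero h, mul_zero]
    have : IsEmpty {l : G // l ∈ L ∧ l * y * l⁻¹ = x} := ⟨fun l => h ⟨l.1, l.2.1, l.2.2⟩⟩
    rw [Nat.card_of_isEmpty]
    simp

theorem sum_cls [Finite G] (L : Subgroup G) (y : G) (F : G → ℂ) :
    (Nat.card (Cz L y) : ℂ) * ∑ᶠ x, cls L y x * F x = ∑ᶠ l ∈ (L : Set G), F (l * y * l⁻¹) := by
  classical
  have := Fintype.ofFinite G
  have h0 : ∑ᶠ l ∈ (L : Set G), F (l * y * l⁻¹) =
      ∑ x : G, ∑ l ∈ (Finset.univ.filter (fun l : G => l ∈ L)).filter (fun l => l * y * l⁻¹ = x),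
        F (l * y * l⁻¹) := by
    rw [Finset.sum_fiberwise_of_maps_to (g := fun l => l * y * l⁻¹) (t := Finset.univ)
      (fun _ _ => Finset.mem_univ _)]
    rw [finsum_mem_eq_finite_toFinset_sum _ (Set.toFinite (L : Set G))]
    refine Finset.sum_congr ?_ fun _ _ => rfl
    ext l
    rw [Set.Finite.mem_toFinset, Finset.mem_filter, SetLike.mem_coe]
    simp
  rw [h0, finsum_eq_sum_of_fintype, Finset.mul_sum]
  refine Finset.sum_congr rfl fun x _ => ?_
  have h1 : ∀ l ∈ (Finset.univ.filter (fun l : G => l ∈ L)).filter (fun l => l * y * l⁻¹ = x),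
      F (l * y * l⁻¹) = F x := by
    intro l hl
    rw [(Finset.mem_filter.1 hl).2]
  rw [Finset.sum_congr rfl h1, Finset.sum_const, nsmul_eq_mul, ← mul_assoc]
  congr 1
  rw [← card_fib, Nat.card_eq_fintype_card, Fintype.card_subtype, Finset.filter_filter]

theorem cc_cls [Finite G] {L : Subgroup G} {ψ : G → ℂ} (hψ : ψ ∈ IrrOn L) (y : G) :
    (Nat.card (Cz L y) : ℂ) * cc ψ (cls L y) = Nat.card L * (ψ y / ψ 1) := by
  have h1 : (Nat.card (Cz L y) : ℂ) * cc ψ (cls L y) =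
      ((Nat.card (Cz L y) : ℂ) * ∑ᶠ x, cls L y x * ψ x) / ψ 1 := by
    unfold cc
    ring
  rw [h1, sum_cls]
  have h2 : ∑ᶠ l ∈ (L : Set G), ψ (l * y * l⁻¹) = Nat.card L * ψ y := by
    classical
    have h3 : ∑ᶠ l ∈ (L : Set G), ψ (l * y * l⁻¹) = ∑ᶠ l ∈ (L : Set G), ψ y :=
      finsum_mem_congr rfl fun l hl => IrrOn_conj hψ hl y
    rw [h3, finsum_mem_eq_finite_toFinset_sum _ (Set.toFinite (L : Set G)), Finset.sum_const,
      nsmul_eq_mul]
    congr 2
    rw [← Set.ncard_eq_toFinset_card (L : Set G) (Set.toFinite (L : Set G))]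
    rfl
  rw [h2]
  ring

/-! ### the inertial group -/

theorem mem_TT {M : Ideal (integralClosure ℤ ℂ)} {D : Subgroup G} {θ : G → ℂ} {g : G} :
    g ∈ TT M D θ ↔ g ∈ nz D ∧ SB M (cz D) (funMap (MulAut.conj g) θ) θ := Iff.rfl

theorem cz_le_nz (D : Subgroup G) : cz D ≤ nz D := by
  intro x hx
  rw [Subgroup.mem_centralizer_iff] at hx
  rw [Subgroup.mem_normalizer_iff]
  intro d
  constructor
  · intro hd
    have h1 : x * d * x⁻¹ = d := by
      rw [← hx d hd]
      group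
    rw [h1]
    exact hd
  · intro hd
    have h1 := hx _ hd
    have h2 : x * d * x⁻¹ = d := by
      have h3 : x * d = x * (x * d * x⁻¹) := by
        rw [← h1]
        group
      have h4 : d = x * d * x⁻¹ := mul_left_cancel h3
      exact h4.symm
    rwa [h2] at hd

theorem cz_le_TT {M : Ideal (integralClosure ℤ ℂ)} {D : Subgroup G} {θ : G → ℂ} :
    cz D ≤ TT M D θ := fun _ hx => ⟨cz_le_nz D hx, SB_inner hx θ⟩

theorem le_cz_of_com {D : Subgroup G} (h : ∀ c ∈ D, ∀ d ∈ D, c * d = d * c) : D ≤ cz D := by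
  intro x hx
  rw [Subgroup.mem_centralizer_iff]
  intro d hd
  exact h d hd x hx

theorem cz_mono {P Q : Subgroup G} (h : P ≤ Q) : cz Q ≤ cz P := by
  intro x hx
  rw [Subgroup.mem_centralizer_iff] at hx ⊢
  exact fun y hy => hx y (h hy)

theorem cz_sup_zpowers (P : Subgroup G) (y : G) : cz (P ⊔ Subgroup.zpowers y) = Cz (cz P) y := by
  ext x
  rw [mem_Cz]
  constructor
  · intro h
    refine ⟨cz_mono le_sup_left h, ?_⟩
    rw [Subgroup.mem_centralizer_iff] at h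
    exact h y (Subgroup.mem_sup_right (Subgroup.mem_zpowers y))
  · rintro ⟨h, h'⟩
    have h1 : P ⊔ Subgroup.zpowers y ≤ Subgroup.centralizer {x} := by
      refine sup_le (fun a ha => ?_) ?_
      · rw [Subgroup.mem_centralizer_iff]
        intro b hb
        rw [Set.mem_singleton_iff] at hb
        rw [hb]
        exact ((Subgroup.mem_centralizer_iff.1 h) a ha).symm
      · rw [Subgroup.zpowers_le, Subgroup.mem_centralizer_iff]
        intro b hb
        rw [Set.mem_singleton_iff] at hb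
        rw [hb]
        exact h'.symm
    rw [Subgroup.mem_centralizer_iff]
    intro a ha
    exact ((Subgroup.mem_centralizer_iff.1 (h1 ha)) x rfl).symm

end

end Pool.Agent.FI
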