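import Mathlib
import Pool.Agent.helper22.FI.SpecA
import Pool.Agent.helper59.FI.SpecB

/-!
# Project fi (MP_baa4d7_al), block A2, second part: subpairs of a block with abelian defect group (helper59)

`Rt p M D x θ χ`: `D` is an abelian defect group of the block of `χ`, `θ ∈ IrrOn (cz D)` with `b(θ)^G = B`. For `P ≤ D` let `L = cz P`.
Rows UNI CNJ FUS CON CNR FUR. File `Pool/Agent/<seat>/FIB/XXX.lean`, import `Pool.Agent.helper59.FI.SpecB2`, namespace `Pool.Agent.FI`,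
`open Pool.Agent.helper58.DC Pool.Agent.DI Pool.Agent.GR Pool.Agent.OB`. Auxiliary lemmas are prefixed `XXX_`.

The statements write `P.map (MulAut.conj g).toMonoidHom` for the conjugate subgroup; this is `cj g P` of OB by definition (`rfl`, use
`change` or `show`), and `Base.lean` (`Pool/Agent/helper59/FI/Base.lean`, all proved, namespace `Pool.Agent.FI`) has the rules for `cj`:
`mem_cj : x ∈ cj g K ↔ g⁻¹ * x * g ∈ K`, `conj_mem_cj`, `cj_mul`, `cj_one`, `cj_inv_cj`, `cj_mono`, `cj_self` (`l ∈ L → cj l L = L`), `cj_top`,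
`cj_nz : cj g D = D ↔ g ∈ nz D`, `card_cj`, `cj_pgroup`, `cj_cz : cz (cj g P) = cj g (cz P)`, `cj_Cz : Cz (cj g L) (g y g⁻¹) = cj g (Cz L y)`;
`IrrOn_funMap : funMap (conj g) ψ ∈ IrrOn (cj g L)`, `funMap_mul`, `funMap_inner` (`= ψ` for `ψ ∈ IrrOn L`, `l ∈ L`), `SB_conj`,
`SB_inner`, `Induces_funMap`, `TRNb` (SB goes up from `H` to `L` for functions zero outside `H`), `SBIb`, `SB_top_iff`,
`cc_cls_top`, `cz_mono`, `cz_sup_zpowers : cz (P ⊔ zpowers y) = Cz (cz P) y`, `le_cz_of_com`, `mem_TT`, `cz_le_TT`, `mem_Cz`.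
-/

set_option autoImplicit false

namespace Pool.Agent.FI

open Pool.Agent.helper58.DC Pool.Agent.DI Pool.Agent.GR Pool.Agent.OB

/-- **UNI** (short-medium; from FWA and BET, DFL, ALP of SpecA). Uniqueness of the block of `cz D` up to conjugation. Proof. `L = cz P`, `C = cz D`; `C ≤ L`
(`cz_mono`), so `L ⊓ cz D = C`. DFL: `x' ∈ C` with `DefL p M L ψ D x'`. ALP for `L`, `D`, `x'`, `ψ`, `θ`: `w ∈ C` with
`|D| = pp p (Cz C w)` and `cc θ (cls C w)` not `InM`. FWA for `L`, `R = D`, `θ`, `w` gives `q`. In its last item `C.relIndex (TT M D θ ⊓ L)` is not divisible by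
`p`, because it divides `C.relIndex (TT M D θ)` (`Subgroup.relIndex_mul_relIndex` for `C ≤ TT ⊓ L ≤ TT`, `cz_le_TT`), BET; `|Cz C w| / |D|` is not divisible by `p` as
`|D|` is the `p`-part of `|Cz C w|`. So `cc θ q` is not `InM` (`InM.or`, `InM.natCast`; `cc θ (cls C w)` is integral, `cc_cls_int`). By `SBIb` (`SB M L θ ψ`, `SB M L θ' ψ`)
`cc θ q`, `cc ψ q`, `cc θ' q` are congruent, so `cc θ' q` is not `InM`, and the fourth item of FWA for `η = θ'` gives `n`. -/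
def UNI_stmt : Prop :=
  ∀ (p : ℕ) (M : Ideal (integralClosure ℤ ℂ)), Setup p M → ∀ (G : Type) [Group G] [Finite G]
    (D : Subgroup G) (x : G) (θ χ : G → ℂ), Rt p M D x θ χ → ∀ P ≤ D, ∀ ψ ∈ IrrOn (cz P),
    SB M (cz P) θ ψ → ∀ θ' ∈ IrrOn (cz D), SB M (cz P) θ' ψ →
    ∃ n ∈ cz P, n ∈ nz D ∧ SB M (cz D) (funMap (MulAut.conj n) θ') θ

/-- **CNJ** (short-medium; from UNI and CNTL, DFL, TPR of SpecA). Proof. `L = cz P`. `cz D₁ ≤ L`, `cz D ≤ L` (`cz_mono`), so `SB M L θ₁ θ` goes up to `⊤` (`TRNb`), and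
with `Rt.ind` (`SB_top_iff`) `SB M ⊤ θ₁ χ`. CNTL for `⊤`, `R = D₁`, `η = θ₁` (`⊤ ⊓ cz D₁ = cz D₁`), `ψ = χ` and `DefL p M ⊤ χ D x` (TPR): some `g` with `g r g⁻¹ ∈ D` for
`r ∈ D₁`; so `D₁` is commutative, `D₁ ≤ cz D₁ ≤ L`. DFL: `x'` with `DefL p M L ψ D x'`. CNTL for `L`, `R = D₁`, `η = θ₁` (`L ⊓ cz D₁ = cz D₁`), `ψ`:
`l₀ ∈ L` with `cj l₀ D₁ ≤ D`, so `cj l₀ D₁ = D` by cardinality (`card_cj`, `Subgroup.eq_of_le_of_card_ge`). `θ₂ = funMap (conj l₀) θ₁ ∈ IrrOn (cz D)` (`IrrOn_funMap`, `cj_cz`),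
`SB M L θ₂ ψ` (`SB_conj`, `cj_self`, `funMap_inner`). UNI for `θ' = θ₂`: `n`. `l = n * l₀` (`cj_mul`, `cj_nz`, `funMap_mul`). -/
def CNJ_stmt : Prop :=
  ∀ (p : ℕ) (M : Ideal (integralClosure ℤ ℂ)), Setup p M → ∀ (G : Type) [Group G] [Finite G]
    (D : Subgroup G) (x : G) (θ χ : G → ℂ), Rt p M D x θ χ → ∀ P ≤ D, ∀ ψ ∈ IrrOn (cz P),
    SB M (cz P) θ ψ → ∀ D₁ : Subgroup G, IsPGroup p D₁ → P ≤ D₁ → Nat.card D₁ = Nat.card D →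
    ∀ θ₁ ∈ IrrOn (cz D₁), SB M (cz P) θ₁ ψ →
    ∃ l ∈ cz P, D₁.map (MulAut.conj l).toMonoidHom = D ∧
      SB M (cz D) (funMap (MulAut.conj l) θ₁) θ

/-- **FUS** (short; from CNJ). Proof. `P' = cj g P`, `ψ' = funMap (conj g) ψ ∈ IrrOn (cz P')` (`IrrOn_funMap`, `cj_cz`), `D₁ = cj g D` (`cj_pgroup`, `cj_mono`, `card_cj`; `D` is a
`p`-group: `DefAt.pgrp`), `θ₁ = funMap (conj g) θ ∈ IrrOn (cz D₁)`, `SB M (cz P') θ₁ ψ'` (`SB_conj`, `cj_cz`). CNJ for `P'`, `ψ'`, `D₁`, `θ₁`: `l ∈ cz P'` with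
`cj l (cj g D) = D`, so `l * g ∈ nz D` (`cj_mul`, `cj_nz`), and `funMap (conj l) (funMap (conj g) θ) = funMap (conj (l * g)) θ` (`funMap_mul`). -/
def FUS_stmt : Prop :=
  ∀ (p : ℕ) (M : Ideal (integralClosure ℤ ℂ)), Setup p M → ∀ (G : Type) [Group G] [Finite G]
    (D : Subgroup G) (x : G) (θ χ : G → ℂ), Rt p M D x θ χ → ∀ P ≤ D, ∀ g : G,
    P.map (MulAut.conj g).toMonoidHom ≤ D → ∀ ψ ∈ IrrOn (cz P), SB M (cz P) θ ψ →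
    SB M (cz (P.map (MulAut.conj g).toMonoidHom)) θ (funMap (MulAut.conj g) ψ) →
    ∃ l ∈ cz (P.map (MulAut.conj g).toMonoidHom), l * g ∈ TT M D θ

/-- **COA** (medium; from FMT, EXT and CNTL, ALP, DUN, SYL, TPR of SpecA). A defect group of the block of `ψ` in `L = cz Q` is a defect group of `B`. Proof. (1) `SB M ⊤ ψ χ`
(`SB_top_iff`). CNTL for `⊤`, `R = Q`, `η = ψ`, `χ`, `DefL p M ⊤ χ D x` (TPR): `Q` is conjugate to a subgroup of `D`, so commutative, `Q ≤ cz Q = L`. `Q ≤ Cz L x₁` (`x₁ ∈ cz Q`), and `D₁` is a Sylow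
`p`-subgroup of `Cz L x₁` (`DefL.card`); SYL, third item, for `R = Q`: some `k ∈ Cz L x₁` with `k r k⁻¹ ∈ D₁` for `r ∈ Q`, and `k r k⁻¹ = r` (`k ∈ cz Q`): `Q ≤ D₁`. (2) `cz D₁ ≤ L`, so `cz Q ⊓ cz D₁ = cz D₁`, `θ₁ ∈ IrrOn (cz D₁)`. `SB M L θ₁ ψ` goes up to `⊤` (`TRNb`),
so `SB M ⊤ θ₁ χ`, `Induces M θ₁ χ`. CNTL for `⊤`, `R = D₁`, `η = θ₁`: `g₀` with `cj g₀ D₁ ≤ D`. So `D₁` is commutative and `|D₁| ≤ |D|`. (3) Suppose `|D₁| < |D|`. ALP for `L`, `D₁`, `x₁`, `ψ`, `θ₁`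
(`L ⊓ cz D₁ = cz D₁`): `w ∈ cz D₁`, `|D₁| = pp p (Cz (cz D₁) w)`, `cc θ₁ (cls (cz D₁) w)` not `InM`. If `p` does not divide `(cz D₁).relIndex (TT M D₁ θ₁)`, then FMT gives `y` with `omega χ y` not `InM` and
`pp p (centralizer {y}) ≤ |D₁| < |D|`, against the minimality in `DefAt`. Otherwise EXT gives `R'` and `a ∈ cz R'`. DUN for `⊤`, `χ`, `D`, `x`, last item (`Blk M χ ⊤ = Bl M ⊤ χ`: `BR_top`, `BR_self`; `R' ≤ Cz ⊤ a`): `R'` is conjugate to a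
subgroup of `D`, so commutative, so `R' ≤ cz D₁` as `D₁ ≤ R'`, a contradiction. So `|D₁| = |D|` and `cj g₀ D₁ = D`. -/
def COA_stmt : Prop :=
  ∀ (p : ℕ) (M : Ideal (integralClosure ℤ ℂ)), Setup p M → ∀ (G : Type) [Group G] [Finite G]
    (D : Subgroup G) (x : G) (θ χ : G → ℂ), Rt p M D x θ χ → ∀ Q : Subgroup G, IsPGroup p Q →
    ∀ ψ ∈ IrrOn (cz Q), Induces M ψ χ → ∀ (D₁ : Subgroup G) (x₁ : G), DefL p M (cz Q) ψ D₁ x₁ →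
    ∀ θ₁ ∈ IrrOn (cz Q ⊓ cz D₁), SB M (cz Q) θ₁ ψ →
    Q ≤ D₁ ∧ Induces M θ₁ χ ∧ ∃ g : G, D₁.map (MulAut.conj g).toMonoidHom = D

/-- **CON** (short-medium; from COA, UNI and DEX, DGL of SpecA). Every subpair is conjugate into `(D, b(θ))`. Proof. `L = cz Q`. DEX for `L`, `ψ`: `(D₁, x₁)`. DGL: `θ₁ ∈ IrrOn (L ⊓ cz D₁)` with `SB M L θ₁ ψ`. COA: `Q ≤ D₁` (so `cz D₁ ≤ L`,
`L ⊓ cz D₁ = cz D₁`, `θ₁ ∈ IrrOn (cz D₁)`), `Induces M θ₁ χ`, `g₀` with `cj g₀ D₁ = D`. `θ₂ = funMap (conj g₀) θ₁ ∈ IrrOn (cz D)`, `Induces M θ₂ χ`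
(`Induces_funMap`). UNI for `P = ⊥` (`cz ⊥ = ⊤`), `ψ = χ` (`IrrOn_top`, `SB_top_iff`), `θ' = θ₂`: `n ∈ nz D` with `SB M (cz D) (funMap (conj n) θ₂) θ`. `g = n * g₀`: `cj g D₁ = D`, so `cj g Q ≤ D`. Let `L' = cz (cj g Q) = cj g L`, `cz D ≤ L'`.
`SB M L' (funMap (conj g) θ₁) (funMap (conj g) ψ)` (`SB_conj`), and `SB M L' (funMap (conj g) θ₁) θ` by `TRNb` from `cz D` (`funMap (conj g) θ₁ ∈ IrrOn (cz D)`). -/
def CON_stmt : Prop :=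
  ∀ (p : ℕ) (M : Ideal (integralClosure ℤ ℂ)), Setup p M → ∀ (G : Type) [Group G] [Finite G]
    (D : Subgroup G) (x : G) (θ χ : G → ℂ), Rt p M D x θ χ → ∀ Q : Subgroup G, IsPGroup p Q →
    ∀ ψ ∈ IrrOn (cz Q), Induces M ψ χ → ∃ g : G, Q.map (MulAut.conj g).toMonoidHom ≤ D ∧
      SB M (cz (Q.map (MulAut.conj g).toMonoidHom)) θ (funMap (MulAut.conj g) ψ)

/-- **CNR** (medium; from CON, FUS and EXB of SpecA). Relative form of CON. Proof. `L = cz P`, `Q = P ⊔ zpowers y`: `cz Q = Cz L y` (`cz_sup_zpowers`), and `Q` is a `p`-group (`P` and `y` commute; `IsPGroup.to_sup_of_normal_right'` or: `Subgroup.mem_sup` and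
powers). `SB M L ψ θ` goes up to `⊤` (`TRNb`; `Cz L y ≤ L`, `cz D ≤ L`), so `Induces M ψ χ`. CON: `g` with `cj g Q ≤ D`, `SB M (cz (cj g Q)) θ (funMap (conj g) ψ)`. EXB for `L` and `Q = D` (`D ≤ cz D ≤ L`,
`L ⊓ cz D = cz D`): `ψ₀ ∈ IrrOn L`, `SB M L θ ψ₀`. Let `P' = cj g P ≤ cj g Q ≤ D`. `SB M (cz P') θ (funMap (conj g) ψ)` (`TRNb` from `cz (cj g Q)`; `cz D ≤ cz (cj g Q)`) and
`SB M (cz P') (funMap (conj g) ψ) (funMap (conj g) ψ₀)` (`SB_conj`, `cj_cz`). FUS for `P`, `g`, `ψ₀`: `l' ∈ cz P'`, `t = l' * g ∈ TT M D θ`. Put `l = t⁻¹ * g = g⁻¹ l'⁻¹ g ∈ cz P` (`cj_cz`, `mem_cj`), `u = l y l⁻¹ = t⁻¹ (g y g⁻¹) t ∈ D` (`g y g⁻¹ ∈ cj g Q ≤ D`,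
`t⁻¹ ∈ nz D`). `SB_conj` by `t⁻¹`: `SB M (cj t⁻¹ (cz (cj g Q))) (funMap (conj t⁻¹) θ) (funMap (conj l) ψ)`, and `cj t⁻¹ (cz (cj g Q)) = cj l (Cz L y) = Cz L u` (`cj_cz`, `cj_mul`, `cj_Cz`, `cj_self`). `SB M (cz D) (funMap (conj t⁻¹) θ) θ`
(`t⁻¹ ∈ TT`) goes up to `Cz L u` (`cz D ≤ Cz L u` as `P ≤ D`, `u ∈ D`). -/
def CNR_stmt : Prop :=
  ∀ (p : ℕ) (M : Ideal (integralClosure ℤ ℂ)), Setup p M → ∀ (G : Type) [Group G] [Finite G]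
    (D : Subgroup G) (x : G) (θ χ : G → ℂ), Rt p M D x θ χ → ∀ P ≤ D, ∀ y ∈ cz P, PEl p y →
    ∀ ψ ∈ IrrOn (Cz (cz P) y), SB M (cz P) ψ θ →
    ∃ l ∈ cz P, l * y * l⁻¹ ∈ D ∧
      SB M (Cz (cz P) (l * y * l⁻¹)) θ (funMap (MulAut.conj l) ψ)

/-- **FUR** (short; from FUS). Relative form of FUS. Proof. `L = cz P`, `Q = P ⊔ zpowers u ≤ D`, `cz Q = Cz L u` (`cz_sup_zpowers`). `cj l Q ≤ D`: `l r l⁻¹ = r ∈ D` for `r ∈ P`, `l u l⁻¹ = a ∈ D` (`Subgroup.map_sup`, or `Q ≤` the subgroup `cj l⁻¹ D`).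
`cz (cj l Q) = cj l (Cz L u) = Cz L a` (`cj_cz`, `cj_Cz`, `cj_self`). FUS for `Q`, `g = l`, `ψ`: `l' ∈ Cz L a` with `t = l' * l ∈ TT M D θ`; `t ∈ L`, and `t u t⁻¹ = l' a l'⁻¹ = a`. -/
def FUR_stmt : Prop :=
  ∀ (p : ℕ) (M : Ideal (integralClosure ℤ ℂ)), Setup p M → ∀ (G : Type) [Group G] [Finite G]
    (D : Subgroup G) (x : G) (θ χ : G → ℂ), Rt p M D x θ χ → ∀ P ≤ D, ∀ a ∈ D, ∀ u ∈ D,
    ∀ l ∈ cz P, l * u * l⁻¹ = a → ∀ ψ ∈ IrrOn (Cz (cz P) u), SB M (Cz (cz P) u) θ ψ →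
    SB M (Cz (cz P) a) θ (funMap (MulAut.conj l) ψ) →
    ∃ t ∈ TT M D θ, t ∈ cz P ∧ t * u * t⁻¹ = a

end Pool.Agent.FI
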