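import Pool.Agent.helper83.GR.All
import Pool.Agent.helper22.FI.AllA
import Pool.Agent.helper59.FI.SpecB2
import Pool.Agent.helper51.FIB.ORD
import Pool.Agent.helper58.FIB.CVS
import Pool.Agent.helper27.FIB.IVS
import Pool.Agent.helper11.FIB.EQO
import Pool.Agent.helper27.FIB.EQR
import Pool.Agent.helper9.FIB.FWV
import Pool.Agent.helper71.FIB.FWB
import Pool.Agent.helper71.FIB.FWC
import Pool.Agent.helper79.FIB.FWD
import Pool.Agent.helper59.FIB.FWA
import Pool.Agent.helper24.FIB.FMT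
import Pool.Agent.helper71.FIB.EXC
import Pool.Agent.helper26.FIB.EXA
import Pool.Agent.helper51.FIB.EXT
import Pool.Agent.helper78.FIB.UNI
import Pool.Agent.helper49.FIB.CNJ
import Pool.Agent.helper57.FIB.FUS
import Pool.Agent.helper28.FIB.COA
import Pool.Agent.helper74.FIB.CONr
import Pool.Agent.helper75.FIB.CNR
import Pool.Agent.helper27.FIB.FUR

/-!
# Project fi (MP_baa4d7_al), block A2: assembly (helper59)

`dXXX`: the rows of `SpecB` and `SpecB2` without hypotheses (block A1 from `helper22/FI/AllA`).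
-/

set_option autoImplicit false

namespace Pool.Agent.FI.AllB

open Pool.Agent Pool.Agent.FI Pool.Agent.GR Pool.Agent.helper58.DC Pool.Agent.DI Pool.Agent.OB

theorem dORD : ORD_stmt := ORD
theorem dCVS : CVS_stmt := CVS
theorem dIVS : IVS_stmt := IVS
theorem dEQO : EQO_stmt :=
  EQO GR.All.dEIN GR.All.dBRH GR.All.dLIF GR.All.dIDM GR.All.dNIL GR.All.dCVF GR.All.dCCI
theorem dEQR : EQR_stmt := EQR dEQO
theorem dEQP : EQP_stmt := EQP dEQR
theorem dFWV : FWV_stmt := FWV GR.All.dC4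
theorem dFWB : FWB_stmt := FWB dORD
theorem dFWC : FWC_stmt := FWC dFWB dFWV GR.All.dCCI GR.All.dIDM GR.All.dEIN
theorem dFWD : FWD_stmt := FWD dORD
theorem dFWA : FWA_stmt := FWA dFWC dFWD
theorem dFMT : FMT_stmt := FMT dFWA dCVS
theorem dEXC : EXC_stmt := EXC dORD
theorem dEXA : EXA_stmt := EXA dCVS dEXC dIVS GR.All.dIDM GR.All.dEIN GR.All.dCCI
theorem dEXT : EXT_stmt :=
  EXT dEXA dEQP dORD dIVS GR.All.dIDM GR.All.dEIN GR.All.dEXP GR.All.dCVF GR.All.dCCI GR.All.dBCL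

theorem dUNI : UNI_stmt := UNI dFWA AllA.dBET AllA.dDFL AllA.dALP
theorem dCNJ : CNJ_stmt := CNJ dUNI AllA.dCNTL AllA.dDFL AllA.dTPR
theorem dFUS : FUS_stmt := FUS dCNJ
theorem dCOA : COA_stmt := COA dFMT dEXT AllA.dCNTL AllA.dALP AllA.dDUN AllA.dSYL AllA.dTPR
theorem dCON : CON_stmt := CON dCOA dUNI AllA.dDEX AllA.dDGL
theorem dCNR : CNR_stmt := CNR dCON dFUS AllA.dEXB
theorem dFUR : FUR_stmt := FUR dFUS

end Pool.Agent.FI.AllB
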